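import Pool.Agent.N729.EX.Fam

set_option autoImplicit false

/-!
# The bounds on abelian sections and on representation growth do not imply expansion

For every `d ≥ 2` there is a sequence of finite `d`-generated groups whose orders tend to infinity,
which satisfies the conditions (A) and (R) and which is not an expanding sequence.

The groups are `V ⋊ W` where `V = (ℤ/m)^l`, `l` is a prime, `m = 1 + b + ⋯ + b ^ (l - 1)` with
`b = 2 ^ (l ^ 2)`, and `W` is generated by the Heisenberg group of order `l ^ 3` and the Weil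
operators, that is `W` is an extension of the Heisenberg group by `SL₂(ℤ/l)`.
-/

namespace Pool.Agent.Results.MP_5cc0c1_al.NotSufficient

open Filter Pool.Agent.N729.EX

/-- The vertex boundary of `X` in the Cayley graph of `G` with edges from `g` to `g * s`, `s ∈ S`. -/
def boundary {G : Type} [Group G] (S X : Set G) : Set G :=
  {g | g ∉ X ∧ ∃ x ∈ X, ∃ s ∈ S, g = x * s}

/-- The sequence of groups is an expanding sequence: there are symmetric generating sets of bounded
size whose Cayley graphs have vertex expansion bounded below by a positive constant. -/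
def IsExpandingSeq (G : ℕ → Type) [∀ n, Group (G n)] : Prop :=
  ∃ (S : ∀ n, Finset (G n)) (B : ℕ) (ε : ℝ), 0 < ε ∧ ∀ n,
    (S n).card ≤ B ∧ (∀ s ∈ S n, s⁻¹ ∈ S n) ∧ Subgroup.closure (S n : Set (G n)) = ⊤ ∧
    ∀ X : Set (G n), X.Nonempty → 2 * X.ncard ≤ Nat.card (G n) →
      ε * (X.ncard : ℝ) ≤ ((boundary (S n : Set (G n)) X).ncard : ℝ)

/-- Condition (A): the orders of the abelianizations of the subgroups are at most exponential in the
index. -/
def CondA (G : ℕ → Type) [∀ n, Group (G n)] : Prop :=
  ∃ c : ℕ, ∀ (n : ℕ) (H : Subgroup (G n)), Nat.card (Abelianization H) ≤ c ^ H.index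

/-- The irreducible complex representations of degree at most `k`, on the spaces `ℂ ^ j`, `j ≤ k`. -/
abbrev Irr (k : ℕ) (G : Type) [Group G] : Type :=
  Σ j : Fin (k + 1), {ρ : Representation ℂ G (Fin j → ℂ) // ρ.IsIrreducible}

/-- Isomorphism of representations. -/
def irrSetoid (k : ℕ) (G : Type) [Group G] : Setoid (Irr k G) where
  r a b := Nonempty (a.2.1.Equiv b.2.1)
  iseqv := ⟨fun _ => ⟨Representation.Equiv.refl _⟩, fun ⟨f⟩ => ⟨f.symm⟩, fun ⟨f⟩ ⟨g⟩ => ⟨f.trans g⟩⟩

/-- The number of isomorphism classes of irreducible complex representations of degree at most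
`k`. -/
noncomputable def repCount (k : ℕ) (G : Type) [Group G] : ℕ∞ :=
  ENat.card (Quotient (irrSetoid k G))

/-- Condition (R): the number of irreducible representations of degree at most `k` is at most
exponential in `k ^ 2`. -/
def CondR (G : ℕ → Type) [∀ n, Group (G n)] : Prop :=
  ∃ c : ℕ, ∀ (n k : ℕ), 1 ≤ k → repCount k (G n) ≤ ((c ^ k ^ 2 : ℕ) : ℕ∞)

theorem repCount_le {G : Type} [Group G] {k N : ℕ}
    (h : ∀ (ι : Type) [Fintype ι] (f : ι → Irr k G),
      (Pairwise fun i j => IsEmpty ((f i).2.1.Equiv (f j).2.1)) → Fintype.card ι ≤ N) :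
    repCount k G ≤ (N : ℕ∞) := by
  have hpair : ∀ (ι : Type) (g : ι → Quotient (irrSetoid k G)), Function.Injective g →
      Pairwise fun i j => IsEmpty (((g i).out).2.1.Equiv ((g j).out).2.1) := by
    intro ι g hg i j hij
    refine ⟨fun φ => hij (hg ?_)⟩
    rw [← Quotient.out_eq (g i), ← Quotient.out_eq (g j)]
    exact Quotient.sound ⟨φ⟩
  rw [repCount]
  rcases finite_or_infinite (Quotient (irrSetoid k G)) with hf | hf
  · cases nonempty_fintype (Quotient (irrSetoid k G))
    rw [ENat.card_eq_coe_fintype_card]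
    exact_mod_cast h (Quotient (irrSetoid k G)) (fun q => q.out) (hpair _ id Function.injective_id)
  · exfalso
    have h1 := h (Fin (N + 1)) (fun i => (Infinite.natEmbedding (Quotient (irrSetoid k G)) i).out)
      (hpair _ (fun i : Fin (N + 1) => Infinite.natEmbedding (Quotient (irrSetoid k G)) i)
        (fun i j hij => Fin.ext ((Infinite.natEmbedding _).injective hij)))
    rw [Fintype.card_fin] at h1
    omega

/-- For every `d ≥ 2` there is a sequence of finite `d`-generated groups with orders tending to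
infinity which satisfies (A) and (R) and is not an expanding sequence. -/
theorem result : ∀ d : ℕ, 2 ≤ d →
    ∃ (G : ℕ → Type) (_ : ∀ n, Group (G n)) (_ : ∀ n, Finite (G n)),
      Tendsto (fun n => Nat.card (G n)) atTop atTop ∧
      (∀ n, ∃ s : Fin d → G n, Subgroup.closure (Set.range s) = ⊤) ∧
      CondA G ∧ CondR G ∧ ¬ IsExpandingSeq G := by
  intro d hd
  refine ⟨FG, inferInstance, inferInstance, ?_, ?_, ?_, ?_, ?_⟩
  · exact tendsto_atTop_mono card_FG tendsto_id
  · intro n
    obtain ⟨x, y, hxy⟩ := FG_two n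
    refine ⟨fun i => if (i : ℕ) = 0 then x else y, ?_⟩
    rw [eq_top_iff, ← hxy]
    refine Subgroup.closure_mono ?_
    intro z hz
    rcases hz with rfl | hz
    · exact ⟨⟨0, by omega⟩, if_pos rfl⟩
    · rw [Set.mem_singleton_iff] at hz
      subst hz
      exact ⟨⟨1, by omega⟩, if_neg one_ne_zero⟩
  · exact ⟨1024, FG_A⟩
  · refine ⟨2 ^ 27, fun n k hk => repCount_le fun ι _ f hf => ?_⟩
    refine FG_R n hk (W := fun i => Fin (f i).1 → ℂ) (fun i => (f i).2.1) (fun i => (f i).2.2) hf
      fun i => ?_
    rw [Module.finrank_fintype_fun_eq_card, Fintype.card_fin]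
    exact Nat.lt_succ_iff.1 (f i).1.isLt
  · rintro ⟨S, B, ε, hε, hS⟩
    obtain ⟨q, hq⟩ := exists_nat_gt (4 / ε)
    have hq0 : 0 < q := by
      have : (0 : ℝ) < q := lt_trans (by positivity) hq
      exact_mod_cast this
    obtain ⟨n, hn⟩ := FG_bottleneck q B hq0
    obtain ⟨X, hX, hX2, hbd⟩ := hn (S n) (hS n).1
    have h1 := (hS n).2.2.2 X hX hX2
    have h2 : (q : ℝ) * ((boundary (S n : Set (FG n)) X).ncard : ℝ) ≤ 4 * (X.ncard : ℝ) := by
      have : q * (boundary (S n : Set (FG n)) X).ncard ≤ 4 * X.ncard := hbd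
      exact_mod_cast this
    have h3 : (0 : ℝ) < (X.ncard : ℝ) := by
      exact_mod_cast (Set.ncard_pos (Set.toFinite X)).2 hX
    rw [div_lt_iff₀ hε] at hq
    have hq' : (0 : ℝ) < q := by exact_mod_cast hq0
    have h4 := mul_le_mul_of_nonneg_left h1 hq'.le
    nlinarith

end Pool.Agent.Results.MP_5cc0c1_al.NotSufficient
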